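import Pool.Agent.H98.ABCR.Stmts3

/-! # ABCR: the base `w` when its exponent is divisible by `k` -/

set_option autoImplicit false

namespace Pool.Agent.H98.ABCR

open Finset Polynomial

private theorem coord_le (v : ℕ × ℕ) (t : Fin 3) : coord v t ≤ v.1 + v.2 := by
  fin_cases t
  · show v.1 ≤ v.1 + v.2
    omega
  · show v.2 ≤ v.1 + v.2
    omega
  · show v.1 + v.2 ≤ v.1 + v.2
    omega

private theorem three (t s : Fin 3) (h : s ≠ t + 1) : s = t ∨ s = t + 2 := by
  revert h
  revert t s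
  decide

private theorem three' (t : Fin 3) : t ≠ t + 2 := by
  revert t
  decide

/-- the fibres are small -/
private theorem fibre (N : ℕ) (X : ℝ) (V : Finset ℕ)
    (h : ∀ w ∈ V, 2 ≤ w ∧ (w : ℝ) ≤ X ∧ ∃ i : ℕ, 1 ≤ i ∧ N = w ^ i) :
    V.card ≤ ⌊2 * Real.log X⌋₊ + 1 := by
  classical
  rcases V.eq_empty_or_nonempty with h0 | ⟨w0, hw0⟩
  · simp [h0]
  obtain ⟨a1, a2, i0, a3, a4⟩ := h w0 hw0
  have hN : N ≠ 1 := by
    rw [a4]
    have : 1 < w0 ^ i0 := Nat.one_lt_pow (by omega) (by omega)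
    omega
  have hq : (N.minFac).Prime := Nat.minFac_prime hN
  have hinj : Set.InjOn (fun w : ℕ => w.factorization N.minFac) V := by
    intro w hw w' hw' he
    obtain ⟨b1, b2, i, b3, b4⟩ := h w hw
    obtain ⟨c1, c2, i', c3, c4⟩ := h w' hw'
    simp only at he
    have e1 : N.factorization N.minFac = i * w.factorization N.minFac := by
      conv_lhs => rw [b4]
      rw [Nat.factorization_pow]
      simp [← b4]
    have e2 : N.factorization N.minFac = i' * w'.factorization N.minFac := by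
      conv_lhs => rw [c4]
      rw [Nat.factorization_pow]
      simp [← c4]
    have hd : N.minFac ∣ w := by
      have := Nat.minFac_dvd N
      conv_rhs at this => rw [b4]
      exact hq.dvd_of_dvd_pow this
    have hpos : 0 < w.factorization N.minFac := hq.factorization_pos_of_dvd (by omega) hd
    have hii : i = i' := by
      rw [← he] at e2
      rw [e1] at e2
      exact Nat.eq_of_mul_eq_mul_right hpos e2
    subst hii
    rw [b4] at c4
    exact Nat.pow_left_injective (by omega) c4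
  rw [← card_image_of_injOn hinj]
  have hsub : V.image (fun w : ℕ => w.factorization N.minFac) ⊆
      range (⌊2 * Real.log X⌋₊ + 1) := by
    intro e he
    obtain ⟨w, hw, rfl⟩ := mem_image.1 he
    obtain ⟨b1, b2, i, b3, b4⟩ := h w hw
    rw [mem_range, Nat.lt_succ_iff]
    apply Nat.le_floor
    have h1 : N.minFac ^ w.factorization N.minFac ≤ w := Nat.ordProj_le _ (by omega)
    have h2 : 2 ^ w.factorization N.minFac ≤ w :=
      (Nat.pow_le_pow_left hq.two_le _).trans h1
    have h3 : (2 : ℝ) ^ w.factorization N.minFac ≤ X := by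
      refine le_trans ?_ b2
      exact_mod_cast h2
    have h4 := Real.log_le_log (by positivity) h3
    rw [Real.log_pow] at h4
    have h5 : (1 : ℝ) / 2 ≤ Real.log 2 := by
      have := Real.log_two_gt_d9
      linarith
    have h6 : (0 : ℝ) ≤ w.factorization N.minFac := Nat.cast_nonneg _
    nlinarith
  simpa using card_le_card hsub

theorem fpw_thm (h : S_TRR) : S_FPW := by
  classical
  obtain ⟨k0, C, hC, hT⟩ := h
  refine ⟨k0, C, hC, ?_⟩
  intro k m n t X W hk1 hk2 hk3 hm hn hX hW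
  have hkpos : 0 < k := hk1.pos
  have hlogX : 0 ≤ Real.log X := Real.log_nonneg hX
  -- choice of the triple
  have hch : ∀ w : ℕ, ∃ v : ℕ × ℕ, w ∈ W → ∃ i j r : ℕ, IsTri v ∧ 1 ≤ i ∧ k ∣ i ∧
      coord v t = w ^ i ∧ coord v (t + 1) = m ^ j ∧ coord v (t + 2) = n ^ r := by
    intro w
    by_cases hw : w ∈ W
    · obtain ⟨_, _, v, i, j, r, h3⟩ := hW w hw
      exact ⟨v, fun _ => ⟨i, j, r, h3⟩⟩
    · exact ⟨(0, 0), fun h => absurd h hw⟩
  choose f hf using hch
  have hw2 : ∀ w ∈ W, 2 ≤ w := by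
    intro w hw
    by_contra hlt
    have h1 := (hW w hw).1
    have h2 : Real.log w ≤ 0 := by
      apply Real.log_nonpos (Nat.cast_nonneg _)
      have : w ≤ 1 := by omega
      exact_mod_cast this
    linarith
  have hfib : W.card ≤ (⌊2 * Real.log X⌋₊ + 1) * (W.image f).card := by
    apply card_le_mul_card_image
    intro v hv
    apply fibre (coord v t) X
    intro w hw
    obtain ⟨hw1, hw3⟩ := mem_filter.1 hw
    obtain ⟨i, j, r, h1, h2, h3, h4, h5, h6⟩ := hf w hw1
    refine ⟨hw2 w hw1, (hW w hw1).2.1, i, h2, ?_⟩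
    rw [← hw3]
    exact h4
  -- the classes
  have hcl : W.image f ⊆ (range k).biUnion (fun ρ => (W.image f).filter
      (fun v => ∃ r : ℕ, r % k = ρ ∧ coord v (t + 2) = n ^ r)) := by
    intro v hv
    obtain ⟨w, hw, rfl⟩ := mem_image.1 hv
    obtain ⟨i, j, r, h1, h2, h3, h4, h5, h6⟩ := hf w hw
    rw [mem_biUnion]
    exact ⟨r % k, mem_range.2 (Nat.mod_lt _ hkpos), mem_filter.2 ⟨hv, r, rfl, h6⟩⟩
  have hone : ∀ ρ ∈ range k, (((W.image f).filter
      (fun v => ∃ r : ℕ, r % k = ρ ∧ coord v (t + 2) = n ^ r)).card : ℝ) ≤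
      C ^ (om m + 1) * (k : ℝ) ^ omk k m := by
    intro ρ hρ
    have hne : t ≠ t + 2 := three' t
    refine hT k m.primeFactors _ (t + 1) (fun s => if s = t then 1 else n ^ ρ) hk1 hk2 hk3
      (fun q hq => Nat.prime_of_mem_primeFactors hq) ?_ ?_
    · intro s
      split_ifs
      · exact one_pos
      · positivity
    · intro v hv
      obtain ⟨hv1, r, hr1, hr2⟩ := mem_filter.1 hv
      obtain ⟨w, hw, rfl⟩ := mem_image.1 hv1
      obtain ⟨i, j, r', h1, h2, h3, h4, h5, h6⟩ := hf w hw
      refine ⟨h1, ?_, ?_, ?_⟩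
      · rw [h5]
        intro p hp
        have hp1 := Nat.prime_of_mem_primeFactors hp
        have hp2 := Nat.dvd_of_mem_primeFactors hp
        exact Nat.mem_primeFactors.2 ⟨hp1, hp1.dvd_of_dvd_pow hp2, by omega⟩
      · intro s hs
        rcases three t s hs with rfl | rfl
        · obtain ⟨a, ha⟩ := h3
          refine ⟨w ^ a, ?_⟩
          rw [if_pos rfl, one_mul, h4, ha, ← pow_mul, mul_comm]
        · refine ⟨n ^ (r / k), ?_⟩
          rw [if_neg hne.symm, hr2, ← pow_mul, ← pow_add, ← hr1]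
          congr 1
          have := Nat.mod_add_div r k
          rw [mul_comm] at this
          omega
      · have e1 : (C : ℝ) ≤ Real.log w := (hW w hw).1
        have e2 : k ≤ i := Nat.le_of_dvd (by omega) h3
        have e3 : ((w ^ i : ℕ) : ℝ) ≤ ((f w).1 : ℝ) + (f w).2 := by
          rw [← h4]
          exact_mod_cast coord_le (f w) t
        have hwp : 0 < w := by have := hw2 w hw; omega
        have e4 : Real.log ((w ^ i : ℕ) : ℝ) ≤ Real.log (((f w).1 : ℝ) + (f w).2) := by
          apply Real.log_le_log _ e3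
          exact_mod_cast Nat.pow_pos hwp
        rw [Nat.cast_pow, Real.log_pow] at e4
        have e5 : (k : ℝ) ≤ i := by exact_mod_cast e2
        have e6 : (0 : ℝ) ≤ k := Nat.cast_nonneg _
        nlinarith
  have hF : ((W.image f).card : ℝ) ≤ k * (C ^ (om m + 1) * (k : ℝ) ^ omk k m) := by
    have h1 := (card_le_card hcl).trans card_biUnion_le
    have h2 : ((W.image f).card : ℝ) ≤ ∑ ρ ∈ range k, (((W.image f).filter
      (fun v => ∃ r : ℕ, r % k = ρ ∧ coord v (t + 2) = n ^ r)).card : ℝ) := by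
      exact_mod_cast h1
    refine (h2.trans (sum_le_sum hone)).trans (le_of_eq ?_)
    rw [sum_const, card_range, nsmul_eq_mul]
  have h3 : (W.card : ℝ) ≤ ((⌊2 * Real.log X⌋₊ : ℝ) + 1) * ((W.image f).card : ℝ) := by
    exact_mod_cast hfib
  have h4 : ((⌊2 * Real.log X⌋₊ : ℝ) + 1) ≤ 1 + 2 * Real.log X := by
    have := Nat.floor_le (show 0 ≤ 2 * Real.log X by positivity)
    linarith
  calc (W.card : ℝ) ≤ ((⌊2 * Real.log X⌋₊ : ℝ) + 1) * ((W.image f).card : ℝ) := h3
    _ ≤ (1 + 2 * Real.log X) * (k * (C ^ (om m + 1) * (k : ℝ) ^ omk k m)) :=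
        mul_le_mul h4 hF (Nat.cast_nonneg _) (by positivity)
    _ = _ := by ring

end Pool.Agent.H98.ABCR
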