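import Pool.Agent.H98.ABCR.Stmts

set_option autoImplicit false

namespace Pool.Agent.H98.ABCR

open Finset Polynomial

private theorem tot_primeFactors_rad (n : ℕ) :
    (rad n).primeFactors = n.primeFactors := by
  unfold rad
  exact Nat.primeFactors_prod fun p hp => Nat.prime_of_mem_primeFactors hp

private theorem tot_log (S : Finset ℕ) (n : ℕ) (hn : n ≠ 0) (h : n.primeFactors ⊆ S) :
    Real.log n = ∑ q ∈ S, (n.factorization q : ℝ) * Real.log q := by
  have h1 : (n : ℝ) = ∏ q ∈ n.primeFactors, (q : ℝ) ^ n.factorization q := by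
    have h2 := Nat.prod_factorization_pow_eq_self hn
    conv_lhs => rw [← h2]
    rw [Finsupp.prod, Nat.support_factorization]
    push_cast
    rfl
  conv_lhs => rw [h1]
  rw [Real.log_prod]
  · rw [Finset.sum_congr rfl fun q _ => Real.log_pow _ _]
    refine Finset.sum_subset h fun q _ hq => ?_
    rw [← Nat.support_factorization, Finsupp.notMem_support_iff] at hq
    rw [hq, Nat.cast_zero, zero_mul]
  · intro q hq
    have := (Nat.prime_of_mem_primeFactors hq).pos
    positivity

theorem tot_thm (h1 : S_TRE) : S_TOT := by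
  obtain ⟨C, hC, h2⟩ := h1 1 one_pos le_rfl
  refine ⟨C, hC, fun R F hF => ?_⟩
  refine h2 R.primeFactors F 2 (fun q hq => Nat.prime_of_mem_primeFactors hq) ?_
  intro v hv
  obtain ⟨hT, hR⟩ := hF v hv
  have ha : v.1 ≠ 0 := hT.1.ne'
  have hb : v.2 ≠ 0 := hT.2.1.ne'
  have hc : v.1 + v.2 ≠ 0 := by omega
  have hn : nn v ≠ 0 := Nat.mul_ne_zero (Nat.mul_ne_zero ha hb) hc
  have hsub : ∀ s : Fin 3, (coord v s).primeFactors ⊆ R.primeFactors := by
    intro s
    rw [← hR, RR, tot_primeFactors_rad]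
    refine Nat.primeFactors_mono ?_ hn
    fin_cases s
    · exact Dvd.intro (v.2 * (v.1 + v.2)) (by simp only [coord, nn]; simp; ring)
    · exact Dvd.intro_left (v.1 * (v.1 + v.2)) (by simp only [coord, nn]; simp; ring)
    · exact Dvd.intro_left _ rfl
  refine ⟨hT, fun s _ => hsub s, ?_⟩
  have h3 : coord v 2 ≠ 0 := hc
  rw [tot_log R.primeFactors (coord v 2) h3 (hsub 2)]
  simp

end Pool.Agent.H98.ABCR
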