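import Pool.Agent.H98.ABCR.Stmts

set_option autoImplicit false

namespace Pool.Agent.H98.ABCR

open Finset Polynomial

/-- the pair attached to a triple with special coordinate `t` -/
private def tre_phi (t : Fin 3) (v : ℕ × ℕ) : ℤ × ℤ :=
  match t with
  | 0 => (-(v.2 : ℤ), (v.1 : ℤ) + v.2)
  | 1 => (-(v.1 : ℤ), (v.1 : ℤ) + v.2)
  | 2 => ((v.1 : ℤ), (v.2 : ℤ))

private theorem tre_inj (t : Fin 3) : Function.Injective (tre_phi t) := by
  rintro ⟨a, b⟩ ⟨a', b'⟩ h
  fin_cases t <;> simp only [tre_phi, Prod.mk.injEq] at h ⊢ <;> omega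

private theorem tre_isSol (t : Fin 3) (v : ℕ × ℕ) (h : IsTri v) :
    IsSol (tre_phi t v).1 (tre_phi t v).2 := by
  obtain ⟨a, b⟩ := v
  obtain ⟨ha, hb, hc⟩ := h
  have hc' : IsCoprime (a : ℤ) b := Nat.isCoprime_iff_coprime.mpr hc
  simp only at ha hb
  fin_cases t
  · refine ⟨?_, ?_, ?_, ?_⟩
    · simp only [tre_phi]; omega
    · simp only [tre_phi]; omega
    · simp only [tre_phi]; omega
    · simp only [tre_phi]
      rw [IsCoprime.neg_left_iff]
      obtain ⟨u, w, huw⟩ := hc'
      exact ⟨w - u, u, by linear_combination huw⟩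
  · refine ⟨?_, ?_, ?_, ?_⟩
    · simp only [tre_phi]; omega
    · simp only [tre_phi]; omega
    · simp only [tre_phi]; omega
    · simp only [tre_phi]
      rw [IsCoprime.neg_left_iff]
      obtain ⟨u, w, huw⟩ := hc'
      exact ⟨u - w, w, by linear_combination huw⟩
  · exact ⟨by simp only [tre_phi]; omega, by simp only [tre_phi]; omega,
      by simp only [tre_phi]; omega, hc'⟩

private theorem tre_ht (t : Fin 3) (v : ℕ × ℕ) :
    ht (tre_phi t v).1 (tre_phi t v).2 = v.1 + v.2 := by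
  obtain ⟨a, b⟩ := v
  fin_cases t <;> simp only [tre_phi, ht] <;> omega

private theorem tre_sum (t : Fin 3) (v : ℕ × ℕ) :
    (tre_phi t v).1 + (tre_phi t v).2 = ((coord v t : ℕ) : ℤ) := by
  obtain ⟨a, b⟩ := v
  fin_cases t
  · simp only [tre_phi, coord]; push_cast; simp
  · simp only [tre_phi, coord]; push_cast; simp
  · simp only [tre_phi, coord]; push_cast; simp

/-- the two coordinates different from `t` -/
private theorem tre_coord (t : Fin 3) (v : ℕ × ℕ) :
    ∃ s s' : Fin 3, s ≠ t ∧ s' ≠ t ∧ (tre_phi t v).1.natAbs = coord v s ∧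
      (tre_phi t v).2.natAbs = coord v s' := by
  obtain ⟨a, b⟩ := v
  fin_cases t
  · refine ⟨1, 2, by decide, by decide, ?_, ?_⟩
    · simp [tre_phi, coord]
    · simp only [tre_phi, coord]; simp; omega
  · refine ⟨0, 2, by decide, by decide, ?_, ?_⟩
    · simp [tre_phi, coord]
    · simp only [tre_phi, coord]; simp; omega
  · exact ⟨0, 1, by decide, by decide, by simp [tre_phi, coord], by simp [tre_phi, coord]⟩

theorem tre_thm (h1 : S_ENG) : S_TRE := by
  classical
  intro δ hδ hδ1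
  obtain ⟨C, hC, h2⟩ := h1 δ hδ hδ1
  refine ⟨C, hC, fun S F t hS hF => ?_⟩
  have h3 := h2 S (F.image (tre_phi t)) hS ?_
  · rwa [Finset.card_image_of_injective _ (tre_inj t)] at h3
  · intro w hw
    obtain ⟨v, hv, rfl⟩ := Finset.mem_image.mp hw
    obtain ⟨hT, hs, hl⟩ := hF v hv
    obtain ⟨s, s', hst, hst', e1, e2⟩ := tre_coord t v
    refine ⟨tre_isSol t v hT, ?_, ?_, ?_⟩
    · rw [e1]; exact hs s hst
    · rw [e2]; exact hs s' hst'
    · unfold Heavy lh slog
      rw [tre_ht, tre_sum]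
      unfold vv
      rw [Int.natAbs_natCast]
      simpa using hl

end Pool.Agent.H98.ABCR
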